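import Pool.Agent.Lib_helper5.DLH.Fin

/-!
# MP_4f5c90_nt: Lang's height inequality when the roots of `f` are far from the points

Let `f` be a monic polynomial of degree `d ≥ 2` with roots `ρ_j` in the number field `L`, and let
`S` be a subset of `L` (for instance a subfield `K` with `f ∈ K[X]`, where `L` is a splitting field;
or the totally real elements of `L`).  Let `R = max (1, |ρ_j|)` at the place `w`.  If the product of
the distances `max (1, dist (ρ_j, S))` exceeds `R`, then the points of `S` of small canonical height
lie near a proper part of the roots, and this gives a gain in the Vandermonde determinant of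
these points.  The theorem: if the sum of the local gains is at least `ε h(ρ)`, then fewer than `N`
points of `S` have small canonical height, and Lang's inequality holds for the wandering points of
`S` if `f` maps `S` to `S`.  The constants depend on `d`, `ε` (and the degree of `L` in the second
part) only; the number of the bad places does not occur.
-/

set_option autoImplicit false

namespace Pool.Agent.Lib_helper95.Superseded.RootsFarFromPoints

open Polynomial NumberField Pool.Agent.Lib_helper5.DLH

theorem result.{u} (d : ℕ) (hd : 2 ≤ d) (ε : ℝ) (hε : 0 < ε) :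
    ∃ (N : ℕ) (κ C : ℝ), 0 < κ ∧ ∀ D : ℕ, ∃ κ' : ℝ, 0 < κ' ∧
      ∀ (L : Type u) [Field L] [NumberField L] (ρ : Fin d → L) (S : Set L),
      ε * rootHeight ρ ≤ farness S ρ →
      (∀ Z : Finset L, (Z : Set L) ⊆ S →
        (∀ z ∈ Z, canHeight (∏ j, (X - Polynomial.C (ρ j))) z < κ * rootHeight ρ - C) →
        Z.card < N) ∧
      (Module.finrank ℚ L ≤ D → (∀ x ∈ S, (∏ j, (X - Polynomial.C (ρ j))).eval x ∈ S) →
        ∀ a ∈ S, Wandering (∏ j, (X - Polynomial.C (ρ j))) a →
        κ' * max 1 (rootHeight ρ) ≤ canHeight (∏ j, (X - Polynomial.C (ρ j))) a) :=
  far_thm hd hε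

end Pool.Agent.Lib_helper95.Superseded.RootsFarFromPoints
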